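import Mathlib
import Pool.Agent.Results.MP_3a3367_nt.ManyPrimesInWindows

/-!
# The number of primes between consecutive squares, and between the squares of consecutive primes, in windows

Let `1 ≤ u_0, u_1, …` be reals with `∑ u_m^{-t} < ∞` for all `t > τ` (`τ = 0` for geometric sequences), `θ < 1`,
`0 < η < 1`, and let `σ ≥ 1` be such that the series of `(p_{k+1} - p_k)² p_k^{-s}` over all `k` converges for `s > σ`
(`MeanSquare σ`; known for `σ = 23/18`, Heath-Brown 1979, `σ = 5/4`, Peck 1996, and `σ = 1.23`, Stadlmann 2022, by partial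
summation). We show: for all `a > 0` outside of a set of Hausdorff dimension at most `(2σ - 2 + 2η + τ) / (1 - θ)`, and for almost
all `a > 0` if `2η + θ + τ < 3 - 2σ`: the number of primes between `n²` and `(n + 1)²` tends to infinity as `n → ∞` through ALL
integers in the windows `|n - a u_m| ≤ u_m^θ` (it is at least `n^η` for large `n`), and the number of primes between `p²` and
`q²`, for consecutive primes `p < q`, tends to infinity as `p → ∞` through ALL primes in these windows (it is at least `p^η`).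

This is the case of large `n` of the k-fold Brocard conjecture (Q2, and Q1 for every `k` and large `n`) for all integers and
primes in the windows. The proof is in `MP_3a3367_nt.ManyPrimesInWindows`.
-/

set_option autoImplicit false

namespace Pool.Agent.Results.MP_1159e0_nt.PrimesToInfinityInWindows

open Filter MeasureTheory Topology

/-- the primes `p 0 = 2, p 1 = 3, …` -/
noncomputable def p (k : ℕ) : ℕ := Nat.nth Nat.Prime k

/-- the mean square of the gaps up to `x` is `O(x^{σ - 1 + ε})`: the series of `(p_{k+1} - p_k)² p_k^{-s}` converges for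
`s > σ` -/
def MeanSquare (σ : ℝ) : Prop := ∀ s : ℝ, σ < s →
  Summable fun k : ℕ => ((p (k + 1) - p k : ℕ) : ℝ) ^ 2 * (p k : ℝ) ^ (-s)

/-- the number of primes strictly between `x` and `y` -/
def between (x y : ℕ) : ℕ := ((Finset.Ioo x y).filter Nat.Prime).card

/-- the integers in the windows around `a u_m` -/
def Windows (u : ℕ → ℝ) (θ a : ℝ) : Set ℕ := {n | ∃ m : ℕ, |(n : ℝ) - a * u m| ≤ u m ^ θ}

/-- at least `n^η` primes between `n²` and `(n+1)²` for all large `n` in the windows, and at least `p_k^η` primes between `p_k²`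
and `p_{k+1}²` for all large `k` with `p_k` in the windows; so both numbers tend to infinity -/
def Holds (u : ℕ → ℝ) (θ η a : ℝ) : Prop :=
  (∀ᶠ n : ℕ in atTop, n ∈ Windows u θ a → (n : ℝ) ^ η ≤ between (n ^ 2) ((n + 1) ^ 2)) ∧
  (∀ᶠ k : ℕ in atTop, p k ∈ Windows u θ a → (p k : ℝ) ^ η ≤ between (p k ^ 2) (p (k + 1) ^ 2)) ∧
  Tendsto (fun n => between (n ^ 2) ((n + 1) ^ 2)) (atTop ⊓ 𝓟 (Windows u θ a)) atTop ∧
  Tendsto (fun k => between (p k ^ 2) (p (k + 1) ^ 2)) (atTop ⊓ 𝓟 {k | p k ∈ Windows u θ a}) atTop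

theorem holds_of {u : ℕ → ℝ} {θ η a : ℝ} (hu : ∀ m, 1 ≤ u m) (ha : 0 < a) (hη : 0 < η)
    (h : Pool.Agent.Results.MP_3a3367_nt.ManyPrimesInWindows.Good u θ η a) : Holds u θ η a := by
  obtain ⟨m₀, hm₀⟩ := h
  have h1 : ∀ᶠ n : ℕ in atTop, n ∈ Windows u θ a → (n : ℝ) ^ η ≤ between (n ^ 2) ((n + 1) ^ 2) := by
    set Y : ℝ := ∑ m ∈ Finset.range m₀, (a * u m + u m ^ θ) with hY
    have hterm : ∀ m, 0 ≤ a * u m + u m ^ θ := fun m => by
      have := hu m
      positivity
    filter_upwards [eventually_gt_atTop (max 3 ⌈Y⌉₊)] with n hn hW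
    obtain ⟨m, hm⟩ := hW
    have hn3 : 3 ≤ n := (le_max_left _ _).trans hn.le
    by_cases hmm : m < m₀
    · exfalso
      have h2 := Finset.single_le_sum (f := fun m => a * u m + u m ^ θ) (fun m _ => hterm m) (Finset.mem_range.2 hmm)
      have h3 : (n : ℝ) ≤ a * u m + u m ^ θ := by
        have := (abs_le.1 hm).2
        linarith
      have h4 : (n : ℝ) ≤ Y := h3.trans h2
      have h5 : Y < n := Nat.lt_of_ceil_lt ((le_max_right _ _).trans_lt hn)
      linarith
    · exact (hm₀ m (not_lt.1 hmm)).1 n hn3 hm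
  have hmono : StrictMono p := Nat.nth_strictMono Nat.infinite_setOfPred_prime
  have hp : Tendsto p atTop atTop := hmono.tendsto_atTop
  have h2 : ∀ᶠ k : ℕ in atTop, p k ∈ Windows u θ a → (p k : ℝ) ^ η ≤ between (p k ^ 2) (p (k + 1) ^ 2) := by
    filter_upwards [hp.eventually h1] with k hk hW
    refine (hk hW).trans ?_
    have h3 : p k + 1 ≤ p (k + 1) := hmono (Nat.lt_succ_self k)
    have h4 : between (p k ^ 2) ((p k + 1) ^ 2) ≤ between (p k ^ 2) (p (k + 1) ^ 2) := by
      unfold between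
      refine Finset.card_le_card fun q hq => ?_
      rw [Finset.mem_filter, Finset.mem_Ioo] at hq ⊢
      exact ⟨⟨hq.1.1, hq.1.2.trans_le (Nat.pow_le_pow_left h3 2)⟩, hq.2⟩
    exact_mod_cast h4
  have hlim : Tendsto (fun n : ℕ => (n : ℝ) ^ η) atTop atTop := (tendsto_rpow_atTop hη).comp tendsto_natCast_atTop_atTop
  refine ⟨h1, h2, ?_, ?_⟩
  · rw [tendsto_atTop]
    intro b
    rw [Filter.eventually_inf_principal]
    filter_upwards [h1, hlim.eventually_ge_atTop (b : ℝ)] with n hn hb hW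
    exact_mod_cast hb.trans (hn hW)
  · rw [tendsto_atTop]
    intro b
    rw [Filter.eventually_inf_principal]
    filter_upwards [h2, (hlim.comp hp).eventually_ge_atTop (b : ℝ)] with k hk hb hW
    exact_mod_cast hb.trans (hk hW)

/-- **Theorem.** Let `σ ≥ 1` with `MeanSquare σ`, `1 ≤ u_m`, `∑_m u_m^{-t} < ∞` for all `t > τ`, `θ < 1`, `0 < η < 1`: the numbers of
primes between consecutive squares and between the squares of consecutive primes tend to infinity in the windows around
`a u_m`: for all `a > 0` outside of a set of dimension at most `(2σ - 2 + 2η + τ) / (1 - θ)`, and for almost all `a > 0` if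
`2η + θ + τ < 3 - 2σ`. -/
theorem result (σ : ℝ) (hσ1 : 1 ≤ σ) (hMS : MeanSquare σ) (u : ℕ → ℝ) (τ θ η : ℝ) (hu : ∀ m, 1 ≤ u m) (hτ : 0 ≤ τ)
    (hgrow : ∀ t : ℝ, τ < t → Summable fun m : ℕ => u m ^ (-t)) (hθ : θ < 1) (hη0 : 0 < η) (hη1 : η < 1) :
    (∃ Z : Set ℝ, dimH Z ≤ ENNReal.ofReal ((2 * σ - 2 + 2 * η + τ) / (1 - θ)) ∧
      ∀ a : ℝ, 0 < a → a ∉ Z → Holds u θ η a) ∧
    (2 * η + θ + τ < 3 - 2 * σ → ∀ᵐ a : ℝ, 0 < a → Holds u θ η a) := by
  obtain ⟨⟨Z, hZ1, hZ2⟩, h2⟩ := Pool.Agent.Results.MP_3a3367_nt.ManyPrimesInWindows.result σ hσ1 hMS u τ θ η hu hτ hgrow hθ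
    hη0.le hη1
  refine ⟨⟨Z, hZ1, fun a ha haZ => holds_of hu ha hη0 (hZ2 a ha haZ)⟩, fun h => ?_⟩
  filter_upwards [h2 h] with a ha ha0
  exact holds_of hu ha0 hη0 (ha ha0)

end Pool.Agent.Results.MP_1159e0_nt.PrimesToInfinityInWindows
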